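import Mathlib
import Pool.Agent.H.MP_b9b46b_al.Main

set_option autoImplicit false

namespace Pool.Agent.Results.MP_b9b46b_al.Equiv

universe u

/-- The ring `A` with its lattice order is a subdirect product of totally ordered rings. -/
def IsFRing (A : Type u) [CommRing A] [Lattice A] : Prop :=
  ∃ (ι : Type u) (T : ι → Type u) (_ : ∀ i, CommRing (T i)) (_ : ∀ i, LinearOrder (T i))
    (_ : ∀ i, IsOrderedRing (T i)) (φ : ∀ i, A →+* T i),
    (∀ i, Function.Surjective (φ i)) ∧
    (∀ i a b, φ i (a ⊔ b) = φ i a ⊔ φ i b) ∧ (∀ i a b, φ i (a ⊓ b) = φ i a ⊓ φ i b) ∧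
    (∀ a b, (∀ i, φ i a = φ i b) → a = b)

/-- The local-global property. -/
def HasLG (A : Type u) [CommRing A] : Prop :=
  ∀ n : ℕ, 1 ≤ n → ∀ f : MvPolynomial (Fin n) A,
    (∀ (M : Ideal A) [M.IsMaximal], ∃ x : Fin n → Localization.AtPrime M,
      IsUnit (MvPolynomial.aeval x f)) →
    ∃ y : Fin n → A, IsUnit (MvPolynomial.eval y f)

theorem result (A : Type u) [CommRing A] [Lattice A] [IsOrderedRing A] (hf : IsFRing A)
    [IsReduced A] (hbi : ∀ x : A, 1 < x → IsUnit x) :
    HasLG A ↔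
      ∀ a b : A, 0 ≤ a → 0 ≤ b → IsCoprime a b → ∃ u : A, IsUnit (a - b * u ^ 2) := by
  open Pool.Agent.H.MP_b9b46b_al MvPolynomial in
  constructor
  · intro h a b _ _ hab
    obtain ⟨y, hy⟩ := h 1 le_rfl (C a - C b * X 0 ^ 2) (by
      intro M _
      by_cases ha : a ∈ M
      · refine ⟨fun _ => 1, ?_⟩
        have h1 : a - b ∉ M := by
          intro h2
          obtain ⟨c, d, hcd⟩ := hab
          have h3 : b ∈ M := by simpa using M.sub_mem ha h2
          exact ‹M.IsMaximal›.ne_top ((Ideal.eq_top_iff_one M).2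
            (hcd ▸ M.add_mem (M.mul_mem_left c ha) (M.mul_mem_left d h3)))
        have := IsLocalization.map_units (Localization.AtPrime M) (⟨a - b, h1⟩ : M.primeCompl)
        simpa using this
      · refine ⟨fun _ => 0, ?_⟩
        have := IsLocalization.map_units (Localization.AtPrime M) (⟨a, ha⟩ : M.primeCompl)
        simpa using this)
    exact ⟨y 0, by simpa using hy⟩
  · intro hb n _ f h
    obtain ⟨ι, T, _, _, _, φ, -, hsup, -, hinj⟩ := hf
    refine unit_of_exch (exch_of φ hsup hinj hbi hb) f fun M hM => ?_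
    obtain ⟨x, hx⟩ := h M
    exact local_to_res f M x hx

end Pool.Agent.Results.MP_b9b46b_al.Equiv
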